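import Mathlib
set_option autoImplicit false

/-!
General version (every odd degree `2 c + 7`) of the computation modulo `4` behind the form of
degree `13`: the trace of the monomial
`x^3 s(x) s^2(x) s^6(x) s^9(x) ... s^(6c+3)(x) s^(6c+5)(x)^2` from the unramified ring of rank
`6 c + 9` is never `0` modulo `4` on units.
-/

namespace Pool.Agent.MP_b93b26_nt.Ins

open Finset

lemma E_mul {Q : Type*} [CommRing Q] (h4 : (4 : Q) = 0) (a b : Q) :
    (1 + 2 * a) * (1 + 2 * b) = 1 + 2 * (a + b) := by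
  linear_combination (a * b) * h4

lemma E_prod {Q : Type*} [CommRing Q] (h4 : (4 : Q) = 0) (n : ℕ) (a : ℕ → Q) :
    ∏ i ∈ range n, (1 + 2 * a i) = 1 + 2 * ∑ i ∈ range n, a i := by
  induction n with
  | zero => simp
  | succ n ih => rw [Finset.prod_range_succ, ih, Finset.sum_range_succ, E_mul h4]

lemma sum_shift {Q : Type*} [AddCommGroup Q] (m : ℕ) (f : ℕ → Q) (hf : ∀ n, f (n + m) = f n)
    (i : ℕ) : ∑ j ∈ range m, f (j + i) = ∑ j ∈ range m, f j := by
  induction i with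
  | zero => rfl
  | succ i ih =>
    rw [← ih]
    have h1 : ∑ j ∈ range (m + 1), f (j + i) = ∑ j ∈ range m, f (j + (i + 1)) + f (0 + i) := by
      rw [Finset.sum_range_succ']
      congr 1
      apply Finset.sum_congr rfl
      intro j _
      congr 1
      ring
    have h2 : ∑ j ∈ range (m + 1), f (j + i) = ∑ j ∈ range m, f (j + i) + f (m + i) := by
      rw [Finset.sum_range_succ]
    have h3 : f (m + i) = f (0 + i) := by rw [add_comm, hf, zero_add]
    rw [h1, h3] at h2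
    exact add_right_cancel h2

/-- the monomial in the conjugates `s j, s (j+1), ...`, of degree `2 c + 7` -/
def Mon {Q : Type*} [CommRing Q] (c : ℕ) (s : ℕ → Q) (j : ℕ) : Q :=
  s j ^ 3 * s (j + 1) * s (j + 2) * (∏ i ∈ range (2 * c), s (j + (6 + 3 * i))) *
    s (j + (6 * c + 5)) ^ 2

/-- the sum of the `8^i` for `i < 2 c + 3` -/
def NN (c : ℕ) : ℕ := ∑ i ∈ range (2 * c + 3), 8 ^ i

lemma NN_seven (c : ℕ) : 2 ^ (6 * c + 9) = NN c * 7 + 1 := by
  have h : ∀ n : ℕ, 8 ^ n = (∑ i ∈ range n, 8 ^ i) * 7 + 1 := by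
    intro n
    induction n with
    | zero => simp
    | succ n ih => rw [Finset.sum_range_succ, pow_succ]; omega
  rw [NN, ← h, show (8 : ℕ) = 2 ^ 3 from rfl, ← pow_mul]
  congr 1
  ring

lemma NN_eq (c : ℕ) : NN c = 9 + ∑ i ∈ range (2 * c), 2 ^ (6 + 3 * i) + 2 ^ (6 * c + 5) * 2 := by
  unfold NN
  rw [show 2 * c + 3 = (2 * c + 2) + 1 by ring, Finset.sum_range_succ,
    Finset.sum_range_succ', Finset.sum_range_succ']
  have h1 : ∑ i ∈ range (2 * c), 8 ^ (i + 1 + 1) = ∑ i ∈ range (2 * c), 2 ^ (6 + 3 * i) := by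
    apply Finset.sum_congr rfl
    intro i _
    rw [show (8 : ℕ) = 2 ^ 3 from rfl, ← pow_mul]
    congr 1
    ring
  have h2 : 8 ^ (2 * c + 2) = 2 ^ (6 * c + 5) * 2 := by
    rw [show (8 : ℕ) = 2 ^ 3 from rfl, ← pow_mul, ← pow_succ]
    congr 1
    ring
  rw [h1, h2]
  ring

lemma mon_mul {Q : Type*} [CommRing Q] (c : ℕ) (s t : ℕ → Q) (j : ℕ) :
    Mon c (fun n => s n * t n) j = Mon c s j * Mon c t j := by
  unfold Mon
  rw [Finset.prod_mul_distrib]
  ring

lemma mon_tau {Q : Type*} [CommRing Q] (c : ℕ) (τ : Q) (j : ℕ) :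
    Mon c (fun n => τ ^ (2 ^ n)) j = (τ ^ NN c) ^ (2 ^ j) := by
  unfold Mon
  rw [Finset.prod_pow_eq_pow_sum, ← pow_mul τ (NN c) (2 ^ j), ← pow_mul, ← pow_mul,
    ← pow_add, ← pow_add, ← pow_add, ← pow_add]
  congr 1
  rw [NN_eq]
  have h1 : ∑ i ∈ range (2 * c), 2 ^ (j + (6 + 3 * i))
      = (∑ i ∈ range (2 * c), 2 ^ (6 + 3 * i)) * 2 ^ j := by
    rw [Finset.sum_mul]
    apply Finset.sum_congr rfl
    intro i _
    rw [pow_add]
    ring
  rw [h1, pow_add 2 j (6 * c + 5), pow_add 2 j 1, pow_add 2 j 2]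
  ring

lemma mon_E {Q : Type*} [CommRing Q] (h4 : (4 : Q) = 0) (c : ℕ) (y : ℕ → Q) (j : ℕ) :
    Mon c (fun n => 1 + 2 * y n) j =
      1 + 2 * (y j + y (j + 1) + y (j + 2) + ∑ i ∈ range (2 * c), y (j + (6 + 3 * i))) := by
  unfold Mon
  have h3 : (1 + 2 * y j) ^ 3 = 1 + 2 * y j := by
    linear_combination (y j + 3 * y j ^ 2 + 2 * y j ^ 3) * h4
  have h2 : (1 + 2 * y (j + (6 * c + 5))) ^ 2 = 1 := by
    linear_combination (y (j + (6 * c + 5)) + y (j + (6 * c + 5)) ^ 2) * h4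
  rw [h3, h2, mul_one, E_prod h4 (2 * c) (fun i => y (j + (6 + 3 * i)))]
  simp only [E_mul h4]

lemma mon_eq {Q : Type*} [CommRing Q] (h4 : (4 : Q) = 0) (c : ℕ) (τ : Q) (y : ℕ → Q) (j : ℕ) :
    Mon c (fun n => τ ^ (2 ^ n) * (1 + 2 * y n)) j =
      (τ ^ NN c) ^ (2 ^ j) * (1 + 2 * (y j + y (j + 1) + y (j + 2)
        + ∑ i ∈ range (2 * c), y (j + (6 + 3 * i)))) := by
  rw [mon_mul c (fun n => τ ^ (2 ^ n)) (fun n => 1 + 2 * y n) j, mon_tau, mon_E h4]

lemma core_sum {Q : Type*} [CommRing Q] (h4 : (4 : Q) = 0) (c : ℕ) (u : Q) (hu : u ^ 7 = 1)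
    (y : ℕ → Q) (hy : ∀ n, y (n + (6 * c + 9)) = y n) :
    ∑ j ∈ range (6 * c + 9), u ^ (2 ^ j) * (1 + 2 * (y j + y (j + 1) + y (j + 2)
        + ∑ i ∈ range (2 * c), y (j + (6 + 3 * i)))) =
      (u + u ^ 2 + u ^ 4) * ((2 * (c : Q) + 3) + 2 * ∑ j ∈ range (6 * c + 9), y j) := by
  set v : ℕ → Q := fun j => u ^ (2 ^ j) with hv
  have hv3 : ∀ n, v (n + 3) = v n := by
    intro n
    simp only [hv]
    rw [pow_add 2 n 3, pow_mul]
    have : (u ^ 2 ^ n) ^ 2 ^ 3 = (u ^ 2 ^ n) * (u ^ 7) ^ (2 ^ n) := by ring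
    rw [this, hu]
    simp
  have hv3k : ∀ k n, v (n + 3 * k) = v n := by
    intro k
    induction k with
    | zero => intro n; simp
    | succ k ih =>
      intro n
      rw [show n + 3 * (k + 1) = n + 3 * k + 3 by ring, hv3, ih]
  have hvm : ∀ n, v (n + (6 * c + 9)) = v n := by
    intro n
    rw [show n + (6 * c + 9) = n + 3 * (2 * c + 3) by ring, hv3k]
  have hT : ∀ n, v n + v (n + 1) + v (n + 2) = u + u ^ 2 + u ^ 4 := by
    intro n
    induction n with
    | zero => simp [hv]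
    | succ n ih =>
      rw [← ih]
      have e1 : n + 1 + 1 = n + 2 := by ring
      have e2 : n + 1 + 2 = n + 3 := by ring
      rw [e1, e2, hv3]
      ring
  set m := 6 * c + 9 with hm
  set A : Q := ∑ j ∈ range m, v j * y j with hA
  set B : Q := ∑ j ∈ range m, v (j + 1) * y j with hB
  set C : Q := ∑ j ∈ range m, v (j + 2) * y j with hC
  have s0 : ∀ i, (∀ j, v (j + i) = v j) → ∑ j ∈ range m, v j * y (j + i) = A := by
    intro i hi
    have : ∑ j ∈ range m, v j * y (j + i) = ∑ j ∈ range m, v (j + i) * y (j + i) := by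
      apply Finset.sum_congr rfl
      intro j _
      rw [hi]
    rw [this]
    exact sum_shift m (fun n => v n * y n) (by intro n; simp only [hvm, hy]) i
  have s1 : ∑ j ∈ range m, v j * y (j + 1) = C := by
    have : ∑ j ∈ range m, v j * y (j + 1) = ∑ j ∈ range m, v (j + 1 + 2) * y (j + 1) := by
      apply Finset.sum_congr rfl
      intro j _
      have : j + 1 + 2 = j + 3 := by ring
      rw [this, hv3]
    rw [this]
    exact sum_shift m (fun n => v (n + 2) * y n)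
      (by intro n; simp only [hy]; rw [show n + m + 2 = n + 2 + m by ring, hvm]) 1
  have s2 : ∑ j ∈ range m, v j * y (j + 2) = B := by
    have : ∑ j ∈ range m, v j * y (j + 2) = ∑ j ∈ range m, v (j + 2 + 1) * y (j + 2) := by
      apply Finset.sum_congr rfl
      intro j _
      have : j + 2 + 1 = j + 3 := by ring
      rw [this, hv3]
    rw [this]
    exact sum_shift m (fun n => v (n + 1) * y n)
      (by intro n; simp only [hy]; rw [show n + m + 1 = n + 1 + m by ring, hvm]) 2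
  have s6 : ∀ i, ∑ j ∈ range m, v j * y (j + (6 + 3 * i)) = A := by
    intro i
    apply s0
    intro j
    rw [show j + (6 + 3 * i) = j + 3 * (i + 2) by ring, hv3k]
  have hABC : A + B + C = (u + u ^ 2 + u ^ 4) * ∑ j ∈ range m, y j := by
    rw [hA, hB, hC, ← Finset.sum_add_distrib, ← Finset.sum_add_distrib, Finset.mul_sum]
    apply Finset.sum_congr rfl
    intro j _
    rw [← hT j]
    ring
  have hsumv : ∀ k : ℕ, ∑ j ∈ range (3 * k), v j = (k : Q) * (u + u ^ 2 + u ^ 4) := by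
    intro k
    induction k with
    | zero => simp
    | succ k ih =>
      rw [show 3 * (k + 1) = 3 * k + 1 + 1 + 1 by ring, Finset.sum_range_succ,
        Finset.sum_range_succ, Finset.sum_range_succ, ih]
      have := hT (3 * k)
      rw [show 3 * k + 1 + 1 = 3 * k + 2 by ring]
      push_cast
      linear_combination this
  have hsumv' : ∑ j ∈ range m, v j = (2 * (c : Q) + 3) * (u + u ^ 2 + u ^ 4) := by
    have := hsumv (2 * c + 3)
    rw [show 3 * (2 * c + 3) = m by rw [hm]; ring] at this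
    rw [this]
    push_cast
    ring
  have hsum6 : ∑ j ∈ range m, v j * ∑ i ∈ range (2 * c), y (j + (6 + 3 * i))
      = (2 * (c : Q)) * A := by
    simp only [Finset.mul_sum]
    rw [Finset.sum_comm]
    rw [Finset.sum_congr rfl (fun i _ => s6 i)]
    simp
  have hexp : ∑ j ∈ range m, v j * (1 + 2 * (y j + y (j + 1) + y (j + 2)
        + ∑ i ∈ range (2 * c), y (j + (6 + 3 * i)))) =
      ∑ j ∈ range m, v j + 2 * (∑ j ∈ range m, v j * y j + ∑ j ∈ range m, v j * y (j + 1)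
        + ∑ j ∈ range m, v j * y (j + 2)
        + ∑ j ∈ range m, v j * ∑ i ∈ range (2 * c), y (j + (6 + 3 * i))) := by
    rw [← Finset.sum_add_distrib, ← Finset.sum_add_distrib, ← Finset.sum_add_distrib,
      Finset.mul_sum, ← Finset.sum_add_distrib]
    apply Finset.sum_congr rfl
    intro j _
    ring
  rw [hexp, s1, s2, hsum6, hsumv']
  linear_combination 2 * hABC + (c : Q) * A * h4

lemma T_ne_zero {Q : Type*} [CommRing Q] (h4 : (4 : Q) = 0) (h2 : (2 : Q) ≠ 0) (u : Q)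
    (hu : u ^ 7 = 1) (hu1 : u = 1 ∨ IsUnit (u - 1)) : u + u ^ 2 + u ^ 4 ≠ 0 := by
  intro ht
  rcases hu1 with h | h
  · subst h
    apply h2
    linear_combination (-2) * ht + 2 * h4
  · have hPhi : 1 + u + u ^ 2 + u ^ 3 + u ^ 4 + u ^ 5 + u ^ 6 = 0 := by
      apply h.mul_left_cancel
      linear_combination hu
    apply h2
    linear_combination (-(u + u ^ 2 + u ^ 4) - 1) * ht + u * hu + 2 * hPhi

/-- the key statement: the trace of the monomial is nonzero modulo `4` -/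
lemma core {Q : Type*} [CommRing Q] (h4 : (4 : Q) = 0) (h2 : (2 : Q) ≠ 0) (c : ℕ) (τ : Q)
    (hτ : (τ ^ NN c) ^ 7 = 1) (hτ1 : τ ^ NN c = 1 ∨ IsUnit (τ ^ NN c - 1))
    (y : ℕ → Q) (hy : ∀ n, y (n + (6 * c + 9)) = y n) :
    ∑ j ∈ range (6 * c + 9), Mon c (fun n => τ ^ (2 ^ n) * (1 + 2 * y n)) j ≠ 0 := by
  intro h
  simp only [mon_eq h4] at h
  rw [core_sum h4 c _ hτ y hy] at h
  apply T_ne_zero h4 h2 _ hτ hτ1
  set Y := ∑ j ∈ range (6 * c + 9), y j
  set T := τ ^ NN c + (τ ^ NN c) ^ 2 + (τ ^ NN c) ^ 4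
  have : T = T * (2 * (c : Q) + 3 + 2 * Y) * (2 * (c : Q) + 3 + 2 * Y) := by
    linear_combination (- T * (((c : Q) + Y) ^ 2 + 3 * ((c : Q) + Y) + 2)) * h4
  rw [this, h, zero_mul]

end Pool.Agent.MP_b93b26_nt.Ins
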