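import Mathlib
import Pool.Agent.Lib.MP_b93b26_nt.Ins.Core
set_option autoImplicit false

namespace Pool.Agent.MP_b93b26_nt.Ins

open Finset

noncomputable section Witt

/-- the residue field, of degree `6 r + 9` over the field with two elements -/
abbrev kk (r : ℕ) := GaloisField 2 (6 * r + 9)
/-- the unramified ring -/
abbrev W (r : ℕ) := WittVector 2 (kk r)

variable {r : ℕ}

/-- Frobenius -/
def sig : (W r) →+* (W r) := WittVector.frobenius

instance : PerfectRing (kk r) 2 := inferInstance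

lemma kk_pow (b : (kk r)) : b ^ (2 ^ (6 * r + 9)) = b := by
  have : Fintype (kk r) := Fintype.ofFinite (kk r)
  have hc : Fintype.card (kk r) = 2 ^ (6 * r + 9) := by
    rw [← Nat.card_eq_fintype_card]
    exact GaloisField.card 2 (6 * r + 9) (by omega)
  have := FiniteField.pow_card b
  rwa [hc] at this

lemma sig_iter (i : ℕ) (x : (W r)) (n : ℕ) : ((sig^[i]) x).coeff n = x.coeff n ^ (2 ^ i) :=
  WittVector.iterate_frobenius_coeff x i n

lemma sig_m (x : (W r)) : (sig^[6 * r + 9]) x = x := by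
  ext n
  rw [sig_iter, kk_pow]

lemma two_dvd_iff (x : (W r)) : (2 : (W r)) ∣ x ↔ x.coeff 0 = 0 := by
  rw [← Ideal.mem_span_singleton]
  exact_mod_cast WittVector.mem_span_p_iff_coeff_zero_eq_zero (p := 2) x

lemma coeff0_sub (x y : (W r)) : (x - y).coeff 0 = x.coeff 0 - y.coeff 0 := by
  have := map_sub (WittVector.constantCoeff : (W r) →+* (kk r)) x y
  simpa using this

/-- Teichmueller lift -/
def tch (b : (kk r)) : (W r) := WittVector.teichmuller 2 b

lemma tch_coeff0 (b : (kk r)) : (tch b).coeff 0 = b := WittVector.teichmuller_coeff_zero 2 b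

lemma tch_mul (a b : (kk r)) : tch (a * b) = tch a * tch b := map_mul _ a b
lemma tch_one : tch (1 : (kk r)) = 1 := map_one _
lemma tch_pow (a : (kk r)) (n : ℕ) : tch (a ^ n) = tch a ^ n := map_pow _ a n

lemma sig_tch (b : (kk r)) : sig (tch b) = tch b ^ 2 := by
  unfold sig tch
  rw [WittVector.frobenius_eq_map_frobenius, WittVector.map_teichmuller, frobenius_def, map_pow]

lemma sig_iter_tch (b : (kk r)) (i : ℕ) : (sig^[i]) (tch b) = tch b ^ (2 ^ i) := by
  induction i with
  | zero => simp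
  | succ i ih =>
    rw [Function.iterate_succ_apply', ih, map_pow, sig_tch]
    ring

lemma decomp (x : (W r)) (hx : x.coeff 0 ≠ 0) :
    ∃ y : (W r), x = tch (x.coeff 0) * (1 + 2 * y) := by
  have h1 : (2 : (W r)) ∣ x - tch (x.coeff 0) := by
    rw [two_dvd_iff, coeff0_sub, tch_coeff0, sub_self]
  obtain ⟨c, hc⟩ := h1
  refine ⟨tch ((x.coeff 0)⁻¹) * c, ?_⟩
  have h2 : tch (x.coeff 0) * tch ((x.coeff 0)⁻¹) = 1 := by
    rw [← tch_mul, mul_inv_cancel₀ hx, tch_one]
  linear_combination hc - 2 * c * h2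

lemma two_cancel (x : (W r)) (h : 2 * x = 0) : x = 0 := by
  apply WittVector.eq_zero_of_p_mul_eq_zero (p := 2) x
  rw [mul_comm]
  exact_mod_cast h

lemma fixed_step (c : (W r)) (hc : sig c = c) : ∃ (e : ℤ) (c' : (W r)), c = (e : (W r)) + 2 * c' ∧ sig c' = c' := by
  have h0 : c.coeff 0 ^ 2 = c.coeff 0 := by
    have := sig_iter 1 c 0
    simp only [Function.iterate_one, hc, pow_one] at this
    exact this.symm
  have h1 : c.coeff 0 = 0 ∨ c.coeff 0 = 1 := by
    have : c.coeff 0 * (c.coeff 0 - 1) = 0 := by linear_combination h0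
    rcases mul_eq_zero.mp this with h | h
    · left; exact h
    · right; linear_combination h
  have key : ∃ e : ℤ, (c - (e : (W r))).coeff 0 = 0 := by
    rcases h1 with h | h
    · exact ⟨0, by simp [h]⟩
    · refine ⟨1, ?_⟩
      rw [coeff0_sub, h]
      simp
  obtain ⟨e, he⟩ := key
  obtain ⟨c', hc'⟩ := (two_dvd_iff _).mpr he
  refine ⟨e, c', by linear_combination hc', ?_⟩
  have h3 : 2 * (sig c' - c') = 0 := by
    have h4 : sig (c - (e : (W r))) = sig (2 * c') := by rw [hc']
    rw [map_sub, map_mul, hc, map_intCast, map_ofNat, hc'] at h4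
    linear_combination -h4
  exact sub_eq_zero.mp (two_cancel _ h3)

lemma fixed_int (c : (W r)) (hc : sig c = c) : ∃ z : ℤ, (4 : (W r)) ∣ c - (z : (W r)) := by
  obtain ⟨e, c', h1, h2⟩ := fixed_step c hc
  obtain ⟨e', c'', h3, _⟩ := fixed_step c' h2
  refine ⟨e + 2 * e', c'', ?_⟩
  push_cast
  rw [h1, h3]
  ring

/-- Key: for a unit `x`, the conjugate sum of the monomial is not divisible by 4. -/
lemma witt_core (x : (W r)) (hx : x.coeff 0 ≠ 0) :
    ¬ (4 : (W r)) ∣ ∑ j ∈ range (6 * r + 9), Mon r (fun n => (sig^[n]) x) j := by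
  intro hdvd
  obtain ⟨y, hy⟩ := decomp x hx
  set b := x.coeff 0 with hb
  let I : Ideal (W r) := Ideal.span {(4 : (W r))}
  let π : (W r) →+* (W r) ⧸ I := Ideal.Quotient.mk I
  have hπ : ∀ z : (W r), π z = 0 ↔ (4 : (W r)) ∣ z := by
    intro z
    rw [Ideal.Quotient.eq_zero_iff_mem, Ideal.mem_span_singleton]
  have hπ4 : π 4 = 4 := map_ofNat π 4
  have hπ2 : π 2 = 2 := map_ofNat π 2
  have h4 : (4 : (W r) ⧸ I) = 0 := by
    have : π 4 = 0 := (hπ 4).mpr dvd_rfl
    rwa [hπ4] at this
  have h2 : (2 : (W r) ⧸ I) ≠ 0 := by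
    intro h
    have : π 2 = 0 := by rw [hπ2]; exact h
    rw [hπ] at this
    obtain ⟨c, hc⟩ := this
    have h3 : (2 : (W r)) * (1 - 2 * c) = 0 := by linear_combination hc
    have h5 := two_cancel _ h3
    have h6 : (2 : (W r)) ∣ 1 := ⟨c, by linear_combination h5⟩
    rw [two_dvd_iff] at h6
    simp at h6
  have hs : ∀ n, (sig^[n]) x = tch b ^ (2 ^ n) * (1 + 2 * (sig^[n]) y) := by
    intro n
    have e1 : ∀ (a c : (W r)), (sig^[n]) (a * c) = (sig^[n]) a * (sig^[n]) c := fun a c =>
      iterate_map_mul sig n a c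
    have e2 : ∀ (a c : (W r)), (sig^[n]) (a + c) = (sig^[n]) a + (sig^[n]) c := fun a c =>
      iterate_map_add sig n a c
    have e3 : (sig^[n]) (2 : (W r)) = 2 := Function.iterate_fixed (map_ofNat sig 2) n
    have e4 : (sig^[n]) (1 : (W r)) = 1 := iterate_map_one sig n
    conv_lhs => rw [hy]
    rw [e1, e2, e1, e3, e4, sig_iter_tch]
  have hb1 : b ^ (NN r * 7) = 1 := by
    have h := kk_pow b
    have e : (2 : ℕ) ^ (6 * r + 9) = NN r * 7 + 1 := NN_seven r
    rw [e, pow_succ] at h
    have : b * (b ^ (NN r * 7) - 1) = 0 := by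
      generalize b ^ (NN r * 7) = q at h ⊢
      linear_combination h
    rcases mul_eq_zero.mp this with h | h
    · exact absurd h hx
    · exact sub_eq_zero.mp h
  have hdvd' := (hπ _).mpr hdvd
  rw [map_sum] at hdvd'
  refine core h4 h2 r (π (tch b)) ?_ ?_ (fun n => π ((sig^[n]) y)) ?_ ?_
  · rw [← map_pow, ← map_pow, ← tch_pow, ← tch_pow, ← pow_mul, hb1, tch_one, map_one]
  · by_cases hv : b ^ NN r = 1
    · left
      rw [← map_pow, ← tch_pow, hv, tch_one, map_one]
    · right
      have hu : IsUnit (tch (b ^ NN r) - 1) := by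
        apply WittVector.isUnit_of_coeff_zero_ne_zero
        rw [coeff0_sub, tch_coeff0]
        simpa using sub_ne_zero.mpr hv
      have := hu.map π
      rwa [map_sub, map_one, tch_pow, map_pow] at this
  · intro n
    rw [Function.iterate_add_apply, sig_m]
  · rw [← hdvd']
    apply Finset.sum_congr rfl
    intro j _
    unfold Mon
    simp only [map_mul, map_pow, map_prod, hs, map_add, map_one, map_ofNat]

end Witt

end Pool.Agent.MP_b93b26_nt.Ins
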