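import Mathlib
import Pool.Agent.Lib.MP_b93b26_nt.Ins.Witt
set_option autoImplicit false

namespace Pool.Agent.MP_b93b26_nt.Ins

open Finset MvPolynomial

noncomputable section Form

variable {r : ℕ}

/-- an `𝔽₂`-basis of the field with `2^(6 r + 9)` elements -/
def bas : Module.Basis (Fin (6 * r + 9)) (ZMod 2) (kk r) :=
  Module.finBasisOfFinrankEq (ZMod 2) (kk r) (GaloisField.finrank 2 (by omega))

def xi (i : Fin (6 * r + 9)) : (W r) := tch (bas i)

def LL (r : ℕ) (j : ℕ) : MvPolynomial (Fin (6 * r + 9)) (W r) := ∑ i, C ((sig^[j]) (xi i)) * X i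

def HH (r : ℕ) : MvPolynomial (Fin (6 * r + 9)) (W r) :=
  ∑ j ∈ range (6 * r + 9), Mon r (LL r) j

lemma map_LL (j : ℕ) : MvPolynomial.map sig (LL r j) = LL r (j + 1) := by
  unfold LL
  rw [map_sum]
  apply Finset.sum_congr rfl
  intro i _
  rw [map_mul, map_C, map_X, Function.iterate_succ_apply']

lemma LL_m (j : ℕ) : LL r (j + (6 * r + 9)) = LL r j := by
  unfold LL
  apply Finset.sum_congr rfl
  intro i _
  rw [Function.iterate_add_apply, sig_m]

lemma map_Mon {A B : Type*} [CommRing A] [CommRing B] (f : A →+* B) (s : ℕ → A) (j : ℕ) :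
    f (Mon r s j) = Mon r (fun n => f (s n)) j := by
  unfold Mon
  simp only [map_mul, map_pow, map_prod]

lemma map_HH : MvPolynomial.map sig (HH r) = (HH r) := by
  unfold HH
  rw [map_sum]
  simp only [map_Mon, map_LL]
  have h : ∀ j, Mon r (fun n => LL r (n + 1)) j = Mon r (LL r) (j + 1) := by
    intro j
    unfold Mon
    simp only [Nat.add_right_comm]
  simp only [h]
  apply sum_shift (6 * r + 9) (fun j => Mon r (LL r) j) _ 1
  intro n
  unfold Mon
  have h2 : ∀ i, n + (6 * r + 9) + i = n + i + (6 * r + 9) := by intro i; ring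
  simp only [h2, LL_m]

lemma LL_hom (j : ℕ) : (LL r j).IsHomogeneous 1 := by
  unfold LL
  apply IsHomogeneous.sum
  intro i _
  simpa using (isHomogeneous_C (Fin (6 * r + 9)) ((sig^[j]) (xi i))).mul (isHomogeneous_X (W r) i)

lemma HH_hom : (HH r).IsHomogeneous (2 * r + 7) := by
  unfold HH
  apply IsHomogeneous.sum
  intro j _
  unfold Mon
  have h := fun j => LL_hom (r := r) j
  have hp : (∏ i ∈ range (2 * r), LL r (j + (6 + 3 * i))).IsHomogeneous (2 * r) := by
    have := IsHomogeneous.prod (range (2 * r)) (fun i => LL r (j + (6 + 3 * i))) (fun _ => 1)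
      (fun i _ => h (j + (6 + 3 * i)))
    simpa using this
  have hh := ((((((h j).pow 3).mul (h (j + 1))).mul (h (j + 2))).mul hp).mul
    ((h (j + (6 * r + 5))).pow 2))
  have hd : 1 * 3 + 1 + 1 + 2 * r + 1 * 2 = 2 * r + 7 := by ring
  rwa [hd] at hh

lemma coeff_HH_fixed (m : Fin (6 * r + 9) →₀ ℕ) : sig (coeff m (HH r)) = coeff m (HH r) := by
  rw [← MvPolynomial.coeff_map, map_HH]

lemma exists_zz : ∃ z : (Fin (6 * r + 9) →₀ ℕ) → ℤ, ∀ m, (4 : (W r)) ∣ coeff m (HH r) - (z m : (W r)) :=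
  ⟨fun m => (fixed_int _ (coeff_HH_fixed m)).choose,
    fun m => (fixed_int _ (coeff_HH_fixed m)).choose_spec⟩

lemma eval_LL (a : Fin (6 * r + 9) → ℤ) (j : ℕ) :
    eval (fun i => (a i : (W r))) (LL r j) = (sig^[j]) (∑ i, xi i * (a i : (W r))) := by
  unfold LL
  rw [map_sum]
  have e1 : ∀ (n : ℕ) (a c : (W r)), (sig^[n]) (a * c) = (sig^[n]) a * (sig^[n]) c := fun n a c =>
      iterate_map_mul sig n a c
  have e3 : ∀ (n : ℕ) (z : ℤ), (sig^[n]) (z : (W r)) = z := fun n z =>
    Function.iterate_fixed (map_intCast sig z) n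
  have e5 : (sig^[j]) (∑ i, xi i * (a i : (W r))) = ∑ i, (sig^[j]) (xi i * (a i : (W r))) := by
    rw [← RingHom.coe_pow, map_sum]
  rw [e5]
  apply Finset.sum_congr rfl
  intro i _
  rw [map_mul, eval_C, eval_X, e1, e3]

lemma eval_HH (a : Fin (6 * r + 9) → ℤ) :
    eval (fun i => (a i : (W r))) (HH r) =
      ∑ j ∈ range (6 * r + 9), Mon r (fun n => (sig^[n]) (∑ i, xi i * (a i : (W r)))) j := by
  unfold HH
  rw [map_sum]
  apply Finset.sum_congr rfl
  intro j _
  rw [map_Mon]
  simp only [eval_LL]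

lemma coeff0_lin (a : Fin (6 * r + 9) → ℤ) (h : (∑ i, xi i * (a i : (W r))).coeff 0 = 0) :
    ∀ i, (2 : ℤ) ∣ a i := by
  have h1 : (WittVector.constantCoeff : (W r) →+* (kk r)) (∑ i, xi i * (a i : (W r))) = 0 := h
  rw [map_sum] at h1
  have h2 : ∑ i, ((a i : ZMod 2)) • bas i = 0 := by
    rw [← h1]
    apply Finset.sum_congr rfl
    intro i _
    rw [map_mul, map_intCast]
    have : (WittVector.constantCoeff : (W r) →+* (kk r)) (xi i) = bas i := tch_coeff0 _
    rw [this, mul_comm (bas i), Algebra.smul_def]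
    simp
  have h3 := Fintype.linearIndependent_iff.mp bas.linearIndependent (fun i => (a i : ZMod 2)) h2
  intro i
  have := h3 i
  rwa [ZMod.intCast_zmod_eq_zero_iff_dvd] at this

theorem G_exists : ∃ G : MvPolynomial (Fin (6 * r + 9)) ℤ, G.IsHomogeneous (2 * r + 7) ∧
    ∀ a : Fin (6 * r + 9) → ℤ, (4 : ℤ) ∣ eval a G → ∀ i, (2 : ℤ) ∣ a i := by
  obtain ⟨z, hz⟩ := exists_zz
  refine ⟨∑ m ∈ (HH r).support, monomial m (z m), ?_, ?_⟩
  · apply IsHomogeneous.sum
    intro m hm
    apply isHomogeneous_monomial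
    have := HH_hom (mem_support_iff.mp hm)
    rw [Finsupp.degree_eq_weight_one]
    exact this
  · intro a ha
    have hcong : (4 : (W r)) ∣ eval (fun i => (a i : (W r))) (HH r) -
        ((eval a (∑ m ∈ (HH r).support, monomial m (z m)) : ℤ) : (W r)) := by
      rw [eval_eq, map_sum]
      push_cast
      rw [← Finset.sum_sub_distrib]
      apply Finset.dvd_sum
      intro m _
      obtain ⟨c, hc⟩ := hz m
      refine ⟨c * ∏ i ∈ m.support, (a i : (W r)) ^ m i, ?_⟩
      rw [eval_monomial, Finsupp.prod]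
      push_cast
      linear_combination (∏ i ∈ m.support, (a i : (W r)) ^ m i) * hc
    have h4 : (4 : (W r)) ∣ ((eval a (∑ m ∈ (HH r).support, monomial m (z m)) : ℤ) : (W r)) := by
      obtain ⟨c, hc⟩ := ha
      rw [hc]
      push_cast
      exact Dvd.intro _ rfl
    have h5 : (4 : (W r)) ∣ eval (fun i => (a i : (W r))) (HH r) := by
      have := dvd_add hcong h4
      rwa [sub_add_cancel] at this
    rw [eval_HH] at h5
    by_contra hcon
    apply witt_core _ _ h5
    intro h0
    exact hcon (coeff0_lin a h0)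

end Form

end Pool.Agent.MP_b93b26_nt.Ins
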