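import Mathlib
import Pool.Agent.Lib.MP_b93b26_nt.Ins.Form
set_option autoImplicit false

/-!
The form of odd degree `d = 2 r + 7` over the 2-adic numbers in
`(r + 3) (6 r + 9) + (2 r + 7)` variables with only the trivial zero.
-/

namespace Pool.Agent.MP_b93b26_nt.Ins

open Finset MvPolynomial

noncomputable section Final

/-- scaling of a homogeneous polynomial -/
lemma hom_scale {ι R : Type*} [CommRing R] (G : MvPolynomial ι R) (n : ℕ)
    (hG : G.IsHomogeneous n) (c : R) (a : ι → R) :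
    eval (fun i => c * a i) G = c ^ n * eval a G := by
  rw [eval_eq, eval_eq, Finset.mul_sum]
  apply Finset.sum_congr rfl
  intro m hm
  have hd : ∑ i ∈ m.support, m i = n := by
    have h1 := hG (mem_support_iff.mp hm)
    have h2 : m.degree = n := by
      rw [Finsupp.degree_eq_weight_one]; exact h1
    rw [← h2]
    rfl
  have : ∏ i ∈ m.support, (c * a i) ^ m i = c ^ n * ∏ i ∈ m.support, a i ^ m i := by
    simp only [mul_pow]
    rw [Finset.prod_mul_distrib, Finset.prod_pow_eq_pow_sum, hd]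
  rw [this]
  ring

theorem N_exists (d : ℕ) : ∃ N : MvPolynomial (Fin d) ℤ, N.IsHomogeneous d ∧
    ∀ a : Fin d → ℤ, (2 : ℤ) ∣ eval a N → ∀ i, (2 : ℤ) ∣ a i := by
  classical
  refine ⟨∑ S ∈ (univ : Finset (Fin d)).powerset,
    if h : S.Nonempty then (∏ i ∈ S, X i) * X (S.min' h) ^ (d - S.card) else 0, ?_, ?_⟩
  · apply IsHomogeneous.sum
    intro S _
    split_ifs with h
    · have h1 : (∏ i ∈ S, (X i : MvPolynomial (Fin d) ℤ)).IsHomogeneous (∑ i ∈ S, 1) :=
        IsHomogeneous.prod S _ _ (fun i _ => isHomogeneous_X ℤ i)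
      have h2 : ((X (S.min' h) : MvPolynomial (Fin d) ℤ) ^ (d - S.card)).IsHomogeneous
          (d - S.card) := isHomogeneous_X_pow _ _
      have h3 := h1.mul h2
      have hc : S.card ≤ d := by simpa using Finset.card_le_univ S
      have h4 : ∑ i ∈ S, 1 + (d - S.card) = d := by
        rw [Finset.sum_const, smul_eq_mul, mul_one]
        omega
      rwa [h4] at h3
    · exact isHomogeneous_zero _ _ _
  · intro a ha
    by_contra hcon
    push Not at hcon
    obtain ⟨i0, hi0⟩ := hcon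
    let b : Fin d → ZMod 2 := fun i => (a i : ZMod 2)
    have h1 : ((eval a (∑ S ∈ (univ : Finset (Fin d)).powerset,
      if h : S.Nonempty then (∏ i ∈ S, X i) * X (S.min' h) ^ (d - S.card) else 0) : ℤ) : ZMod 2)
      = 0 := by
      rwa [ZMod.intCast_zmod_eq_zero_iff_dvd]
    have hb : ∀ i, b i * b i = b i := by
      intro i
      generalize b i = c
      revert c
      decide
    have hbp : ∀ i n, b i * b i ^ n = b i := by
      intro i n
      induction n with
      | zero => simp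
      | succ n ih => rw [pow_succ, ← mul_assoc, ih, hb]
    have h2 : ((eval a (∑ S ∈ (univ : Finset (Fin d)).powerset,
      if h : S.Nonempty then (∏ i ∈ S, X i) * X (S.min' h) ^ (d - S.card) else 0) : ℤ) : ZMod 2)
      = ∑ S ∈ (univ : Finset (Fin d)).powerset, (if S.Nonempty then ∏ i ∈ S, b i else 0) := by
      rw [map_sum]
      push_cast
      apply Finset.sum_congr rfl
      intro S _
      split_ifs with h
      · rw [map_mul, map_prod, map_pow, eval_X]
        simp only [eval_X]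
        push_cast
        have hm : S.min' h ∈ S := S.min'_mem h
        rw [← Finset.mul_prod_erase S _ hm]
        have := hbp (S.min' h) (d - S.card)
        simp only [b] at this ⊢
        linear_combination (∏ x ∈ S.erase (S.min' h), ((a x : ZMod 2))) * this
      · simp
    have h3 : ∑ S ∈ (univ : Finset (Fin d)).powerset, (if S.Nonempty then ∏ i ∈ S, b i else 0)
      = ∑ S ∈ (univ : Finset (Fin d)).powerset, ∏ i ∈ S, b i - 1 := by
      have : ∀ S ∈ (univ : Finset (Fin d)).powerset, (if S.Nonempty then ∏ i ∈ S, b i else 0)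
        = ∏ i ∈ S, b i - if S = ∅ then 1 else 0 := by
        intro S _
        by_cases h : S = ∅
        · subst h; simp
        · rw [if_pos (Finset.nonempty_iff_ne_empty.mpr h), if_neg h, sub_zero]
      rw [Finset.sum_congr rfl this, Finset.sum_sub_distrib, Finset.sum_ite_eq']
      simp
    rw [h2, h3, ← Finset.prod_one_add] at h1
    have hbi : b i0 = 1 := by
      have h0 : b i0 ≠ 0 := by
        intro h
        exact hi0 ((ZMod.intCast_zmod_eq_zero_iff_dvd (a i0) 2).mp h)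
      revert h0
      generalize b i0 = c
      revert c
      decide
    have h5 : ∏ i, (1 + b i) = 0 := by
      apply Finset.prod_eq_zero (Finset.mem_univ i0)
      rw [hbi]
      decide
    rw [h5] at h1
    exact absurd h1 (by decide)

/-- the descent modulo powers of `4` -/
lemma descent (r : ℕ) (g : Fin (r + 3) → ℤ) (nn : ℤ)
    (h : (2 : ℤ) ^ (2 * r + 7) ∣ ∑ j : Fin (r + 3), 4 ^ (j : ℕ) * g j + 2 ^ (2 * r + 6) * nn)
    (key : ∀ j, (4 : ℤ) ∣ g j → (2 : ℤ) ^ (2 * r + 7) ∣ g j) :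
    (∀ j, (4 : ℤ) ∣ g j) ∧ (2 : ℤ) ∣ nn := by
  have h4 : ∀ k : ℕ, (4 : ℤ) ^ k = 2 ^ (2 * k) := by
    intro k
    rw [pow_mul]
    norm_num
  have hall : ∀ n : ℕ, ∀ hn : n < r + 3, (4 : ℤ) ∣ g ⟨n, hn⟩ := by
    intro n
    induction n using Nat.strong_induction_on with
    | _ n ih =>
      intro hn
      set j : Fin (r + 3) := ⟨n, hn⟩ with hj
      have hd1 : (4 : ℤ) ^ (n + 1) ∣ 2 ^ (2 * r + 7) := by
        rw [h4]
        exact pow_dvd_pow _ (by omega)
      have hd2 : (4 : ℤ) ^ (n + 1) ∣ 2 ^ (2 * r + 6) * nn := by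
        rw [h4]
        exact (pow_dvd_pow _ (by omega)).mul_right _
      have h1 : (4 : ℤ) ^ (n + 1) ∣ ∑ j : Fin (r + 3), 4 ^ (j : ℕ) * g j :=
        (dvd_add_left hd2).mp (hd1.trans h)
      rw [← Finset.add_sum_erase _ _ (mem_univ j)] at h1
      have h2 : (4 : ℤ) ^ (n + 1) ∣ ∑ x ∈ univ.erase j, 4 ^ (x : ℕ) * g x := by
        apply Finset.dvd_sum
        intro x hx
        have hxj : x ≠ j := Finset.ne_of_mem_erase hx
        have hne : (x : ℕ) ≠ n := by
          intro he
          apply hxj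
          apply Fin.ext
          rw [he, hj]
        rcases lt_or_gt_of_ne hne with hlt | hgt
        · have h3 := key x (ih x hlt x.2)
          exact (hd1.trans h3).mul_left _
        · exact (pow_dvd_pow _ hgt).mul_right _
      have h3 := (dvd_add_left h2).mp h1
      have h5 : ((j : Fin (r + 3)) : ℕ) = n := rfl
      rw [h5, pow_succ] at h3
      exact (mul_dvd_mul_iff_left (pow_ne_zero n (by norm_num))).mp h3
  have hall' : ∀ j, (4 : ℤ) ∣ g j := fun j => hall j j.2
  refine ⟨hall', ?_⟩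
  have h1 : (2 : ℤ) ^ (2 * r + 7) ∣ ∑ j : Fin (r + 3), 4 ^ (j : ℕ) * g j :=
    Finset.dvd_sum (fun j _ => (key j (hall' j)).mul_left _)
  have h2 := (dvd_add_right h1).mp h
  rw [show 2 * r + 7 = (2 * r + 6) + 1 by ring, pow_succ] at h2
  exact (mul_dvd_mul_iff_left (pow_ne_zero _ (by norm_num))).mp h2

/-- the index set of the variables -/
abbrev II (r : ℕ) := (Fin (r + 3) × Fin (6 * r + 9)) ⊕ Fin (2 * r + 7)

theorem F_exists (r : ℕ) : ∃ F : MvPolynomial (II r) ℤ, F.IsHomogeneous (2 * r + 7) ∧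
    ∀ a : II r → ℤ, (2 : ℤ) ^ (2 * r + 7) ∣ eval a F → ∀ i, (2 : ℤ) ∣ a i := by
  obtain ⟨G, hG, hG2⟩ := G_exists (r := r)
  obtain ⟨N, hN, hN2⟩ := N_exists (2 * r + 7)
  refine ⟨∑ j : Fin (r + 3), C (4 ^ (j : ℕ)) * rename (fun i => Sum.inl (j, i)) G +
    C (2 ^ (2 * r + 6)) * rename Sum.inr N, ?_, ?_⟩
  · apply IsHomogeneous.add
    · apply IsHomogeneous.sum
      intro j _
      exact (hG.rename_isHomogeneous).C_mul _
    · exact (hN.rename_isHomogeneous).C_mul _
  · intro a ha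
    have hev : eval a (∑ j : Fin (r + 3), C (4 ^ (j : ℕ)) * rename (fun i => Sum.inl (j, i)) G +
      C (2 ^ (2 * r + 6)) * rename Sum.inr N) =
      ∑ j : Fin (r + 3), 4 ^ (j : ℕ) * eval (fun i => a (Sum.inl (j, i))) G +
        2 ^ (2 * r + 6) * eval (fun i => a (Sum.inr i)) N := by
      rw [map_add, map_sum, map_mul, eval_C, eval_rename]
      congr 1
      apply Finset.sum_congr rfl
      intro j _
      rw [map_mul, eval_C, eval_rename]
      rfl
    rw [hev] at ha
    have key : ∀ j : Fin (r + 3), (4 : ℤ) ∣ eval (fun i => a (Sum.inl (j, i))) G →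
        (2 : ℤ) ^ (2 * r + 7) ∣ eval (fun i => a (Sum.inl (j, i))) G := by
      intro j hj
      have h1 := hG2 _ hj
      choose b hb using h1
      have e : (fun i => a (Sum.inl (j, i))) = fun i => 2 * b i := by
        funext i; exact hb i
      rw [e, hom_scale G _ hG]
      exact Dvd.intro _ rfl
    obtain ⟨h1, h2⟩ := descent r _ _ ha key
    rintro (⟨j, i⟩ | i)
    · exact hG2 _ (h1 j) i
    · exact hN2 _ h2 i

theorem F_two_adic (r : ℕ) : ∃ F : MvPolynomial (II r) ℚ_[2], F.IsHomogeneous (2 * r + 7) ∧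
    ∀ x : II r → ℚ_[2], eval x F = 0 → x = 0 := by
  obtain ⟨F, hF, hF2⟩ := F_exists r
  refine ⟨MvPolynomial.map (Int.castRingHom ℚ_[2]) F, hF.map _, ?_⟩
  intro x hx
  by_contra hne
  -- choose the coordinate of maximal norm
  have hnonempty : (univ : Finset (II r)).Nonempty := ⟨Sum.inr ⟨0, by omega⟩, mem_univ _⟩
  obtain ⟨i0, -, hi0⟩ := Finset.exists_max_image (univ : Finset (II r)) (fun i => ‖x i‖) hnonempty
  have hx0 : x i0 ≠ 0 := by
    intro h
    apply hne
    funext i
    have := hi0 i (mem_univ i)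
    simp only [h, norm_zero] at this
    exact norm_le_zero_iff.mp this
  -- normalise
  let y : II r → ℤ_[2] := fun i => ⟨(x i0)⁻¹ * x i, by
    rw [norm_mul, norm_inv, inv_mul_le_iff₀ (norm_pos_iff.mpr hx0), mul_one]
    exact hi0 i (mem_univ i)⟩
  have hy0 : y i0 = 1 := by
    apply Subtype.ext
    simp only [y]
    rw [inv_mul_cancel₀ hx0]
    rfl
  have hy : eval y (MvPolynomial.map (Int.castRingHom ℤ_[2]) F) = 0 := by
    have h1 : ((eval y (MvPolynomial.map (Int.castRingHom ℤ_[2]) F) : ℤ_[2]) : ℚ_[2]) =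
        eval (fun i => (x i0)⁻¹ * x i) (MvPolynomial.map (Int.castRingHom ℚ_[2]) F) := by
      have e1 : ((eval y (MvPolynomial.map (Int.castRingHom ℤ_[2]) F) : ℤ_[2]) : ℚ_[2]) =
          PadicInt.Coe.ringHom (eval y (MvPolynomial.map (Int.castRingHom ℤ_[2]) F)) := rfl
      rw [e1, eval_map, eval_map, hom_eval₂]
      congr 1
    rw [hom_scale _ _ (hF.map _), hx, mul_zero] at h1
    apply Subtype.ext
    rw [h1]
    rfl
  let θ : ℤ_[2] →+* ZMod (2 ^ (2 * r + 7)) := PadicInt.toZModPow (2 * r + 7)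
  have hne2 : NeZero (2 ^ (2 * r + 7)) := ⟨pow_ne_zero _ (by norm_num)⟩
  let a : II r → ℤ := fun i => ((θ (y i)).val : ℤ)
  have ha : ∀ i, ((a i : ℤ) : ZMod (2 ^ (2 * r + 7))) = θ (y i) := by
    intro i
    simp only [a]
    rw [Int.cast_natCast, ZMod.natCast_zmod_val]
  have hdvd : (2 : ℤ) ^ (2 * r + 7) ∣ eval a F := by
    have h1 : θ (eval y (MvPolynomial.map (Int.castRingHom ℤ_[2]) F)) =
        ((eval a F : ℤ) : ZMod (2 ^ (2 * r + 7))) := by
      rw [eval_map, hom_eval₂]
      have e2 : ((eval a F : ℤ) : ZMod (2 ^ (2 * r + 7))) =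
          (Int.castRingHom (ZMod (2 ^ (2 * r + 7)))) (eval₂ (RingHom.id ℤ) a F) := rfl
      rw [e2, hom_eval₂]
      congr 1
      · exact RingHom.ext_int _ _
      · funext i
        exact (ha i).symm
    rw [hy, map_zero] at h1
    have := (ZMod.intCast_zmod_eq_zero_iff_dvd (eval a F) (2 ^ (2 * r + 7))).mp h1.symm
    exact_mod_cast this
  have h2 := hF2 a hdvd i0
  have h3 : a i0 = 1 := by
    have h5 : Fact (1 < 2 ^ (2 * r + 7)) := ⟨Nat.one_lt_two_pow (by omega)⟩
    simp only [a, hy0, map_one]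
    rw [ZMod.val_one]
    rfl
  rw [h3] at h2
  norm_num at h2

/-- every odd degree `d ≥ 7`: an anisotropic form in `(3 d² - 13 d + 12) / 2` variables -/
theorem main (d : ℕ) (hodd : Odd d) (h7 : 7 ≤ d) :
    ∃ F : MvPolynomial (Fin ((3 * d ^ 2 - 13 * d + 12) / 2)) ℚ_[2], F.IsHomogeneous d ∧
      ∀ x : Fin ((3 * d ^ 2 - 13 * d + 12) / 2) → ℚ_[2], eval x F = 0 → x = 0 := by
  obtain ⟨k, hk⟩ := hodd
  obtain ⟨r, hr⟩ : ∃ r, d = 2 * r + 7 := ⟨k - 3, by omega⟩
  subst hr
  obtain ⟨F, hF, hF2⟩ := F_two_adic r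
  have hcard : (3 * (2 * r + 7) ^ 2 - 13 * (2 * r + 7) + 12) / 2
      = (r + 3) * (6 * r + 9) + (2 * r + 7) := by
    have h1 : 3 * (2 * r + 7) ^ 2 = 2 * ((r + 3) * (6 * r + 9) + (2 * r + 7)) - 12
        + 13 * (2 * r + 7) := by
      have : 12 ≤ 2 * ((r + 3) * (6 * r + 9) + (2 * r + 7)) := by nlinarith [Nat.zero_le r]
      zify [this]
      ring
    have h2 : 12 ≤ 2 * ((r + 3) * (6 * r + 9) + (2 * r + 7)) := by nlinarith [Nat.zero_le r]
    omega
  rw [hcard]
  let e : II r ≃ Fin ((r + 3) * (6 * r + 9) + (2 * r + 7)) :=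
    Fintype.equivFinOfCardEq (by simp)
  refine ⟨MvPolynomial.rename e F, hF.rename_isHomogeneous, fun x hx0 => ?_⟩
  rw [MvPolynomial.eval_rename] at hx0
  have h1 := hF2 _ hx0
  funext i
  have h2 := congrFun h1 (e.symm i)
  simpa using h2

end Final

end Pool.Agent.MP_b93b26_nt.Ins
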